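import Pool.Agent.T9h39.CtLie

/-!
# Tate classes of codimension two on the fourth power decide the Tate conjecture for the products of
all powers of an abelian variety with an arbitrary variety

Let `F₀` be a finitely generated field of any characteristic, `Γ` its Galois group, `ℓ` a prime number
different from the characteristic, `K` an algebraic closure of `ℚ_ℓ` and `χ` the cyclotomic
character.  Let `A` be an abelian variety over `F₀` such that `K ⊗ V_ℓ(A)` is a sum of copies of
**irreducible** representations `V i` with nondegenerate alternating pairings `B i` with values in
`K(1)` (`w i = 1`; by the theorems of Faltings and Zarhin this is so over a finite extension of `F₀`,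
if all simple factors of `A` over the algebraic closure are of type I or II in the classification of
Albert, for instance if `End(A) = ℤ`; the `B i` are combinations of the Weil pairings of divisors on
`A × A`).  Let `Z` be **any** smooth projective variety over `F₀`, for example another abelian
variety, and `H` the sum of the `H^m(Z, K)`.

The Tate classes (over finite extensions) of codimension `j` on `A ^ n × Z` are combinations of the
multilinear maps `f` from `S` copies of the `V i` to `H` with `f (g x) = χ(g)^j g (f x)` for all `g` in
a subgroup `Δ` of finite index of `Γ` (`IsTateMap`).

The only hypothesis about places (`PolarizedFamily`): for every `i` there is a local operator, relative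
to `Z`, **which is not zero on `V i`** (nothing is assumed about its rank).  For example:

* the operator `γ - 1` for an element `γ` of the inertia group of a place where `Z` has good reduction
  and `A` has semistable reduction, and `γ` acts on `V i` nontrivially;
* the slope operator of a Frobenius element at a place where `Z` is supersingular, or `Z` is a point,
  and some Frobenius eigenvalue on `V i` is not a root of unity times a square root of `q`;
* combinations, commutators and conjugates of such operators (`IsLocal`).

If `Z` is a point, there is such a place in characteristic zero.

**Theorem.**  Consider the condition (`QuarticTate`): the Tate classes of codimension two over `F₀`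
in the part `H¹(A)^(⊗4)` of the cohomology of `A ^ 4` are combinations of products of two pairings
`B i` (of products of two classes of divisors).

1.  It holds if and only if the Tate classes of all codimensions on all powers of `A`, over all finite
    extensions of `F₀`, are combinations of products of pairings `B i`.
2.  If it holds, then the Tate classes on `A ^ n × Z` are exactly the combinations of products of
    pairings `B i` and of Tate classes on `Z`, for all `n`.
3.  So, if it holds, the Tate conjecture for `A ^ n × Z` is equivalent to the Tate conjecture for
    `Z`: if all Tate classes on `Z` belong to the space `Alg` of algebraic classes, the Tate classes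
    on `A ^ n × Z` are combinations of products of pairings and elements of `Alg`.

The proof is a version of Larsen's alternative for Lie algebras of operators which are
normalized by the group, instead of algebraic groups: by the condition, the equivariant linear maps of
`∏ End(V i)` act on the symplectic Lie algebras `sp(V i)` through scalars; one applies this to the
orthogonal projections, for the trace form, onto the commutative algebra generated by a stable
commutative space of skew operators, and onto the Lie algebra of all the families of skew operators
which kill all the Tate classes on all `A ^ n × Z`.
-/

namespace Pool.Agent.Results.MP_7b53ad_ag.CodimensionTwoDecides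

open Pool.Agent.T9h39.Rel Pool.Agent.T9h39.Ct

/-- **Codimension two decides.** -/
theorem result {K Γ ι : Type} [Field K] [CharZero K] [IsAlgClosed K] [Group Γ] [Fintype ι]
    {V : ι → Type} [∀ i, AddCommGroup (V i)] [∀ i, Module K (V i)]
    [∀ i, FiniteDimensional K (V i)] {H : Type} [AddCommGroup H] [Module K H]
    [FiniteDimensional K H] (χ : Γ →* Kˣ) (w : ι → ℕ) (ρ : ∀ i, Representation K Γ (V i))
    (B : ∀ i, V i →ₗ[K] V i →ₗ[K] K) (σ : Representation K Γ H)
    (h : PolarizedFamily χ w ρ B σ) :
    (QuarticTate χ w ρ B ↔ ∀ (S : Type) [Fintype S] (Δ : Subgroup Γ), Δ.FiniteIndex →
      ∀ (j : ℕ) (f : MultilinearMap K (fun _ : S => ∀ i, V i) K),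
        IsTateMap χ ρ (Representation.trivial K Γ K) Δ j f →
          IsProductOfPairings χ w B (Representation.trivial K Γ K) Δ j f) ∧
    (QuarticTate χ w ρ B → ∀ (S : Type) [Fintype S] (Δ : Subgroup Γ), Δ.FiniteIndex →
      ∀ (j : ℕ) (f : MultilinearMap K (fun _ : S => ∀ i, V i) H),
        (IsTateMap χ ρ σ Δ j f ↔ IsProductOfPairings χ w B σ Δ j f) ∧
        ∀ Alg : Submodule K H,
          (∀ (m : ℕ) (z : H), (∀ g ∈ Δ, (χ g : K) ^ j • σ g z = (χ g : K) ^ m • z) → z ∈ Alg) →
          IsTateMap χ ρ σ Δ j f → f ∈ Submodule.span K {u | PairingTimes B Alg u}) := by
  classical
  exact ⟨quartic_iff h, fun hQ S _ Δ hΔ j f =>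
    ⟨tate_iff h hQ hΔ f, fun Alg hAlg hf => algebraic_of h hQ hΔ hAlg hf⟩⟩

end Pool.Agent.Results.MP_7b53ad_ag.CodimensionTwoDecides
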