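import Pool.Agent.T9h39.GalMain

/-!
# Abelian varieties over finitely generated fields: more than one half of the Tate classes on one large
# power decides the Tate conjecture (an effective index law)

Let `F` be a finitely generated field of any characteristic, `Γ` its Galois group, `W` the `ℓ`-adic
cohomology of the smooth projective varieties over the algebraic closure, with the action of `Γ`: each
variety, morphism and cycle is defined over a finite extension of `F`, so that on `H(Y)` a subgroup of
finite index acts (`GaloisSystem`; `χ` is the action on the Tate twists, which are suppressed). The
theorem is proved for an abstract Weil cohomology theory with such actions of a group.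

Let `X` be an abelian variety (or any variety with an endomorphism which acts on `H^i(X)` as `(-1)^i`,
`HasInversion`), let `b` be the sum of its Betti numbers (`2 ^ (2 g)` for an abelian variety of
dimension `g`), and `E` a divisor with nonzero self-intersection number, for example an ample one. Let
`t n` be the dimension of the space of the Tate classes (over all finite extensions of `F`) in the middle
degree of `X ^ (2 n + 2)`, that is, of codimension `(n + 1) dim X`, and `r n` the rank of the group of the
algebraic cycles of this codimension modulo numerical equivalence. Then:

1. `0 < r n ≤ t n ≤ (n + 2) ^ (b ^ 2) r n`: both numbers grow exponentially, but unconditionally there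
   are at most polynomially many times more Tate classes than algebraic classes.
2. For every `κ` the Tate conjecture holds for `X ^ (κ + 1)` in all codimensions, and homological and
   numerical equivalence agree on it, or
   `t n ≥ (2 - 2 (κ + 1) b ^ (2 κ + 4) log (n + 2) / n) r n` for all `n ≥ 1`.

So a single Tate class on `X` which is not algebraic forces an explicit surplus of Tate classes on
all large powers; and conversely, if on one single large power (effectively, the size depends on
the Betti numbers only) slightly more than one half of the Tate classes in the middle degree is
algebraic, then the Tate conjecture holds for `X` in all codimensions. No semisimplicity, no Frobenius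
elements, weights or standard conjectures are used.
-/

open CategoryTheory AlgebraicGeometry

universe u v w

namespace Pool.Agent.Results.MP_7b53ad_ag.EffectiveIndexLaw

open Pool.Agent.H914 Pool.Agent.H914.VarClass Pool.Agent.H914.VarClass.Obj
  Pool.Agent.H914.WeilCohomology Pool.Agent.W534 Pool.Agent.Y163 Pool.Agent.R940
  Pool.Agent.T9h39.GS

/-- **The effective index law for Tate classes over finitely generated fields.** -/
theorem result {k : Type u} [Field k] {𝒱 : VarClass k} {ops : CycleOps 𝒱}
    (W : WeilCohomology.{u, v} ops) {Γ : Type w} [Group Γ] (χ : Γ →* W.Kˣ)
    (G : GaloisSystem W Γ χ) (X : 𝒱.Obj) (hX : HasInversion W X)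
    (E : X.Cycles) (hE : X.IsCyc 1 E) (hbig : Big ops X E)
    (t r : ℕ → ℕ) (ht : ∀ n, t n = tateRank G (sq X n) ((n + 1) * X.dim))
    (hr : ∀ n, r n = numRank ops (sq X n) ((n + 1) * X.dim)) :
    (∀ n, 0 < r n ∧ r n ≤ t n ∧ t n ≤ (n + 2) ^ (Pool.Agent.R940.betti W X ^ 2) * r n) ∧
    ∀ κ, (TateConj G (pw X κ) ∧ HomEqNum W (pw X κ)) ∨
      NearlyTwice (indexConst (Pool.Agent.R940.betti W X) κ) t r :=
  effective_index G hX hE hbig t r ht hr

end Pool.Agent.Results.MP_7b53ad_ag.EffectiveIndexLaw
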