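import Pool.Agent.T9h39.SbTate

/-!
# The Tate conjecture for products of powers of abelian varieties with an arbitrary variety, from one place
where that variety has good or supersingular reduction

Let `F₀` be a finitely generated field of any characteristic, `Γ` its Galois group, `ℓ` a prime number
different from the characteristic, `K` an algebraic closure of `ℚ_ℓ` and `χ` the cyclotomic
character. Let `A` be an abelian variety over `F₀` such that `K ⊗ V_ℓ(A)` is, over a finite extension
of `F₀`, a sum of copies of strongly irreducible representations `V i`, no two of them isomorphic
up to scalars, with nondegenerate alternating pairings `B i` with values in `K(1)` (`w i = 1`; by the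
theorems of Faltings and Zarhin this is so if all simple factors of `A` over the algebraic closure are
of type I or II in the classification of Albert, for instance if `End(A) = ℤ`; the `B i` are combinations
of the Weil pairings of divisors on `A × A`). Let `Z` be **any** smooth projective variety over
`F₀`, for example another abelian variety, and `H` the sum of the `H^m(Z, K)`.

The Tate classes (over finite extensions) of codimension `j` on `A ^ n × Z` are combinations of the
multilinear maps `f` from `S` copies of the `V i` to `H` with `f (g x) = χ(g)^j g (f x)` for all `g` in
a subgroup `Δ` of finite index of `Γ` (`IsTateMap`).

*Local operators* relative to `Z` (`IsLocal`) are obtained from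

* the operators `γ - 1` for the elements `γ` of the group with `γ = 1` on `H` and `(γ - 1) ^ 2 = 0` on all
  `V i`: elements of the inertia groups of the places where `Z` has good reduction (or where
  the inertia group acts on `H` through a finite group), and `A` has semistable reduction; **all the `V i` may
  be ramified at the same places, and the toric ranks are arbitrary**;
* the slope operators of Frobenius elements `F` at places of good or bad reduction: multiplication
  by `θ (a)` on the eigenspaces of `F` with eigenvalue `a`, for a homomorphism `θ` from the multiplicative
  group to the additive group which vanishes on `χ(F)` and on the eigenvalues of `F` on `H`. Example: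
  `Z` is supersingular at this place (the slopes of `F` on `H^m(Z)` are all equal to `m / 2`)
  and `θ` is the slope minus one half of the weight; so `F` is an arbitrary Frobenius element at a
  place where `Z` is supersingular and `A` is not;

by linear combinations, commutators and conjugation with elements of `Γ`. (So also the components of
a local operator with respect to a slope operator are local operators.)

Hypotheses.  (1) On `A` alone (`RelativeFamily`, for the trivial representation in place of `H`, so
that there are no conditions on `γ` and `F` related to `Z`): for every `i` there is a local operator `N` with
`N ^ 2 = 0` whose defects on `V i` (the rank on `V i`, and the multiplicities on `V i` of the nonzero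
eigenvalues of the `N N'`, for local operators `N'` with `N' ^ 2 = 0`) have no common prime factor or contain
the number two (or a weaker condition, if the conjugates of `N` act irreducibly on `V i`).
(2) On `A` and `Z`: for every `i` there is a local operator relative to `Z` **which is not zero on `V i`**;
nothing is assumed about its rank, and the places of (1) and (2) are not related.

**Theorem.** The Tate classes on `A ^ n × Z` are exactly the linear combinations of products of pairings
`B i` (classes of divisors on `A × A`, pulled back by two projections `A ^ n → A`) and of Tate classes
on `Z`. So, for all `n`, **the Tate conjecture for `A ^ n × Z` is equivalent to the Tate conjecture for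
`Z`** (second statement: if all Tate classes on `Z` belong to the space `Alg` of algebraic classes, the
Tate classes on `A ^ n × Z` are combinations of products of pairings and elements of `Alg`).

Examples. (1) `A` is an elliptic curve without complex multiplication, with bad multiplicative reduction at
a place where `Z` has potentially good reduction, or with ordinary reduction at a place where `Z` is
supersingular: for instance `Z` is any power of an abelian variety with complex multiplication (which has
potentially good reduction everywhere), or of an abelian variety which is supersingular at one of the
ordinary places of `A`. (2) `End(A) = ℤ`, the toric rank of `A` at some place is one or two, or prime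
to some multiplicity as above, and at another place `Z` has good reduction and `A` has bad
semistable reduction of any toric rank, or `Z` is supersingular and `A` is not.

The starting file `MixedPlaces` is about powers of one abelian variety (`Z` is a point).

Idea of the proof.  All the local operators of `A` extend to operators on the values of the equivariant
maps `f`, so the Lie algebra of the families which do so is the product of all `sp(V i)` by (1); the
operators which kill all the `f` are an ideal in it, and this ideal contains `sp(V i)` by (2).
-/

namespace Pool.Agent.Results.MP_7b53ad_ag.PlacesRelativeToVariety

open Pool.Agent.T9h39.Rel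

/-- **Tate classes on the products of powers of `A` with `Z`.** -/
theorem result {K Γ ι : Type} [Field K] [CharZero K] [IsAlgClosed K] [Group Γ] [Fintype ι]
    {V : ι → Type} [∀ i, AddCommGroup (V i)] [∀ i, Module K (V i)]
    [∀ i, FiniteDimensional K (V i)] {H : Type} [AddCommGroup H] [Module K H]
    [FiniteDimensional K H] (χ : Γ →* Kˣ) (w : ι → ℕ) (ρ : ∀ i, Representation K Γ (V i))
    (B : ∀ i, V i →ₗ[K] V i →ₗ[K] K) (σ : Representation K Γ H)
    (h : RelativeFamily χ w ρ B (Representation.trivial K Γ K))
    (hσ : ∀ i, ∃ X, IsLocal χ ρ σ X ∧ X i ≠ 0) {S : Type} [Fintype S] (Δ : Subgroup Γ)
    (hΔ : Δ.FiniteIndex) (j : ℕ) (f : MultilinearMap K (fun _ : S => ∀ i, V i) H) :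
    (IsTateMap χ ρ σ Δ j f ↔ IsProductOfPairings χ w B σ Δ j f) ∧
      ∀ Alg : Submodule K H,
        (∀ (m : ℕ) (z : H), (∀ g ∈ Δ, (χ g : K) ^ j • σ g z = (χ g : K) ^ m • z) → z ∈ Alg) →
        IsTateMap χ ρ σ Δ j f → f ∈ Submodule.span K {u | PairingTimes B Alg u} := by
  classical
  exact ⟨Pool.Agent.T9h39.Sb.tate_iff h.alt h.nondeg h.act (fun i => Or.inr (hσ i))
      (Pool.Agent.T9h39.Sb.full_of_defects h) hΔ f,
    fun Alg hAlg hf => Pool.Agent.T9h39.Sb.algebraic_of h.alt h.nondeg h.act
      (fun i => Or.inr (hσ i)) (Pool.Agent.T9h39.Sb.full_of_defects h) hΔ hAlg hf⟩

end Pool.Agent.Results.MP_7b53ad_ag.PlacesRelativeToVariety
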