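import Pool.Agent.T9h39.SbTate

/-!
# The Tate conjecture for products of powers of abelian varieties with any variety with small Betti
numbers

Let `F₀` be a finitely generated field of any characteristic, `Γ` its Galois group, `ℓ` a prime number
different from the characteristic, `K` an algebraic closure of `ℚ_ℓ` and `χ` the cyclotomic
character.  Let `A` be an abelian variety over `F₀` such that `K ⊗ V_ℓ(A)` is a sum of copies of
irreducible representations `V i` with nondegenerate alternating pairings `B i` with values in `K(1)`
(`w i = 1`; by the theorems of Faltings and Zarhin this is so over a finite extension of `F₀`, if all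
simple factors of `A` over the algebraic closure are of type I or II in the classification of Albert;
for instance `V = K ⊗ V_ℓ(A)` is one piece of dimension `2 dim A`, if `End(A) = ℤ`).

Hypothesis on `A` alone: either (`RelativeFamily`, for the trivial representation) the `V i` are
strongly irreducible and not isomorphic up to scalars, and there are local operators of square
zero whose defects (ranks, and multiplicities of eigenvalues of products) on `V i` have no common
prime factor, or contain the number two (the operators come from the inertia groups of places of
semistable bad reduction and from the slopes of Frobenius elements at places where `A` is not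
supersingular, and from combinations, commutators and conjugates of these); or (`QuarticTate`) the
Tate classes of codimension two in `H¹(A)^(⊗4)` are combinations of products of two pairings `B i`, and
some local operator is not zero on `V i`, for every `i`.

Let `Z` be **any** smooth projective variety over `F₀`, and `H` one of its cohomology groups
`H^m(Z, K)`, or any part of it.  The only hypothesis on `Z` is that the dimension of `H` is **less than
the dimensions of the `V i`**; there is no condition on the reduction of `Z` at any place.  This is sharp:
for `Z = A` and `m = 1` the conclusion is wrong.

**Theorem.**  The Tate classes (over finite extensions) on the `A ^ n × Z` with values in `H`, that is the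
multilinear maps `f` from `S` copies of the `V i` to `H` with `f (g x) = χ(g)^j g (f x)` for all `g` in a
subgroup `Δ` of finite index of `Γ` (`IsTateMap`), are exactly the linear combinations of products
of pairings `B i` (classes of divisors on `A × A`, pulled back by two projections `A ^ n → A`) and
of Tate classes in `H`.  So, if all Betti numbers of `Z` are less than the dimensions of the `V i`,
then for all `n` the Tate conjecture for `A ^ n × Z` is equivalent to the Tate conjecture for `Z`
(second statement: if all Tate classes in `H` belong to the space `Alg` of algebraic classes, the
Tate classes on `A ^ n × Z` are combinations of products of pairings and elements of `Alg`).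

Example.  `End(A) = ℤ`, `dim A = g`, `A` has at some place a toric rank (or a defect) equal to one or
two, or prime to some other one, and `Z` is any variety with Betti numbers less than `2 g`: any
abelian variety of dimension `d` with `binom (2 d) m < 2 g` for all `m`, any curve of genus less than
`g`, or products of such varieties with small Betti numbers, whatever their endomorphisms and their
reduction.

Idea of the proof.  The values of the equivariant maps span a subspace `U` of `H`, on which all the
local operators of `A` act through operators on `H` (for unipotent elements `γ` which act
arbitrarily on `H`, this is a polynomial interpolation between the powers of `γ`).  So the symplectic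
Lie algebras `sp(V i)`, which are generated by local operators, act on `U`.  A nonzero
representation of `sp(V)` has dimension at least `dim V` (elementary induction, `SbRep.lean`).
-/

namespace Pool.Agent.Results.MP_7b53ad_ag.SmallBettiNumbers

open Module Pool.Agent.T9h39.Rel Pool.Agent.T9h39.Ct

/-- **Tate classes on the products of powers of `A` with a variety with small Betti numbers.** -/
theorem result {K Γ ι : Type} [Field K] [CharZero K] [IsAlgClosed K] [Group Γ] [Fintype ι]
    {V : ι → Type} [∀ i, AddCommGroup (V i)] [∀ i, Module K (V i)]
    [∀ i, FiniteDimensional K (V i)] {H : Type} [AddCommGroup H] [Module K H]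
    [FiniteDimensional K H] (χ : Γ →* Kˣ) (w : ι → ℕ) (ρ : ∀ i, Representation K Γ (V i))
    (B : ∀ i, V i →ₗ[K] V i →ₗ[K] K)
    (hA : RelativeFamily χ w ρ B (Representation.trivial K Γ K) ∨
      (PolarizedFamily χ w ρ B (Representation.trivial K Γ K) ∧ QuarticTate χ w ρ B))
    (σ : Representation K Γ H) (hH : ∀ i, finrank K H < finrank K (V i))
    {S : Type} [Fintype S] (Δ : Subgroup Γ) (hΔ : Δ.FiniteIndex) (j : ℕ)
    (f : MultilinearMap K (fun _ : S => ∀ i, V i) H) :
    (IsTateMap χ ρ σ Δ j f ↔ IsProductOfPairings χ w B σ Δ j f) ∧
      ∀ Alg : Submodule K H,
        (∀ (m : ℕ) (z : H), (∀ g ∈ Δ, (χ g : K) ^ j • σ g z = (χ g : K) ^ m • z) → z ∈ Alg) →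
        IsTateMap χ ρ σ Δ j f → f ∈ Submodule.span K {u | PairingTimes B Alg u} := by
  classical
  rcases hA with h | ⟨h, hQ⟩
  · exact ⟨Pool.Agent.T9h39.Sb.tate_iff h.alt h.nondeg h.act (fun i => Or.inl (hH i))
      (Pool.Agent.T9h39.Sb.full_of_defects h) hΔ f,
      fun Alg hAlg hf => Pool.Agent.T9h39.Sb.algebraic_of h.alt h.nondeg h.act
        (fun i => Or.inl (hH i)) (Pool.Agent.T9h39.Sb.full_of_defects h) hΔ hAlg hf⟩
  · exact ⟨Pool.Agent.T9h39.Sb.tate_iff h.alt h.nondeg h.act (fun i => Or.inl (hH i))
      (Pool.Agent.T9h39.Sb.full_of_quartic h hQ) hΔ f,
      fun Alg hAlg hf => Pool.Agent.T9h39.Sb.algebraic_of h.alt h.nondeg h.act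
        (fun i => Or.inl (hH i)) (Pool.Agent.T9h39.Sb.full_of_quartic h hQ) hΔ hAlg hf⟩

end Pool.Agent.Results.MP_7b53ad_ag.SmallBettiNumbers
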